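import Pool.Agent.W447.LT.Stm

/-! Project LT, task LT-SKEW: the skew product criterion. -/

set_option autoImplicit false

namespace Pool.Agent.W369.LT

open Pool.Agent.W447.LT

section

variable {Γ A : Type}

/-- second coordinate number `n` -/
def sc : List (A × Bool) → ℕ → Bool
  | [], _ => false
  | x :: _, 0 => x.2
  | _ :: V, n + 1 => sc V n

theorem ext_sc : ∀ V V' : List (A × Bool), V.map Prod.fst = V'.map Prod.fst →
    (∀ n, sc V n = sc V' n) → V = V'
  | [], [], _, _ => rfl
  | [], _ :: _, h, _ => by simp at h
  | _ :: _, [], h, _ => by simp at h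
  | x :: V, x' :: V', h, h' => by
    rw [List.map_cons, List.map_cons, List.cons.injEq] at h
    have h1 : x = x' := Prod.ext h.1 (h' 0)
    have h2 := ext_sc V V' h.2 (fun n => h' (n + 1))
    rw [h1, h2]

theorem sc_ge : ∀ (V : List (A × Bool)) (n : ℕ), V.length ≤ n → sc V n = false
  | [], _, _ => rfl
  | _ :: _, 0, h => by simp at h
  | _ :: V, n + 1, h => sc_ge V n (by simpa using h)

theorem upw_append (u v : W Γ) : upw (u ++ v) = upw u ++ upw v := by
  simp [upw]

theorem winv_upw (u : W Γ) : winv (upw u) = upw (winv u) := by
  simp [upw, winv, Function.comp_def, List.map_reverse]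

/-- prefixes are respected -/
theorem act_pre (M : AR Γ A) (u : List A) (U : W Γ) :
    ∃ U', ∀ v, M.act (u ++ v) U = M.act u U ++ M.act v U' := by
  induction u generalizing U with
  | nil => exact ⟨U, fun v => rfl⟩
  | cons x u ih =>
    obtain ⟨U', h⟩ := ih (M.rs U x).2
    refine ⟨U', fun v => ?_⟩
    rw [List.cons_append, act_cons, act_cons, h, List.cons_append]

variable [DecidableEq A]

theorem one_some (M : AR Γ A) (w : W Γ) (z a0 : A) (s : Γ × Bool) (y : A × Bool) :
    (skew M w z a0).one (some s.1, s.2) y = (((M.one s y.1).1, y.2), upw (M.one s y.1).2) := by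
  obtain ⟨g, b⟩ := s
  cases b
  · simp only [AR.one, skew, if_false, Bool.false_eq_true]
    have h : ((M.perm g).prodCongr (Equiv.refl Bool)).symm y = ((M.perm g).symm y.1, y.2) := rfl
    rw [h]
    simp only
    rw [winv_upw]
  · simp only [AR.one, skew, if_true]
    rfl

theorem rs_upw (M : AR Γ A) (w : W Γ) (z a0 : A) (U : W Γ) (x : A × Bool) :
    (skew M w z a0).rs (upw U) x = (((M.rs U x.1).1, x.2), upw (M.rs U x.1).2) := by
  induction U with
  | nil => rfl
  | cons s U ih =>
    have e : upw (s :: U) = (some s.1, s.2) :: upw U := rfl
    rw [e]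
    simp only [AR.rs]
    rw [ih, one_some]
    simp only
    rw [upw_append]

theorem act_upw (M : AR Γ A) (w : W Γ) (z a0 : A) (U : W Γ) (V : List (A × Bool)) :
    ((skew M w z a0).act V (upw U)).map Prod.fst = M.act (V.map Prod.fst) U ∧
      ∀ n, sc ((skew M w z a0).act V (upw U)) n = sc V n := by
  induction V generalizing U with
  | nil => exact ⟨rfl, fun n => rfl⟩
  | cons x V ih =>
    obtain ⟨h1, h2⟩ := ih (M.rs U x.1).2
    rw [act_cons, rs_upw, List.map_cons, List.map_cons, act_cons]
    refine ⟨?_, fun n => ?_⟩
    · simp only
      rw [h1]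
    · cases n with
      | zero => rfl
      | succ n => exact h2 n

/-- the flips made by the generator `none` -/
def P (M : AR Γ A) (w : W Γ) (z a0 : A) : ℕ → List A → Bool
  | _, [] => false
  | 0, x :: _ => decide (x = a0)
  | n + 1, x :: v =>
    if x = z then xor (P M w z a0 n v) (P M w z a0 n (M.act v (winv w))) else false

theorem P_nil (M : AR Γ A) (w : W Γ) (z a0 : A) (n : ℕ) : P M w z a0 n [] = false := by
  cases n <;> rfl

theorem act_none (M : AR Γ A) (w : W Γ) (z a0 : A) : ∀ (N : ℕ) (V : List (A × Bool)),
    V.length = N → ((skew M w z a0).act V [(none, true)]).map Prod.fst = V.map Prod.fst ∧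
      ∀ n, sc ((skew M w z a0).act V [(none, true)]) n =
        xor (sc V n) (P M w z a0 n (V.map Prod.fst)) := by
  intro N
  induction N with
  | zero =>
    intro V hV
    have hV' : V = [] := List.length_eq_zero_iff.1 hV
    subst hV'
    refine ⟨rfl, fun n => ?_⟩
    rw [List.map_nil, P_nil, Bool.xor_false]
    rfl
  | succ N ih =>
    intro V hV
    match V, hV with
    | x :: V, hV =>
      have hV' : V.length = N := by simpa using hV
      rw [act_gen]
      have hp : (skew M w z a0).perm none x = (x.1, if x.1 = a0 then !x.2 else x.2) := rfl
      have hs : (skew M w z a0).sec none x =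
          if x.1 = z then (none, true) :: (upw w ++ (none, true) :: winv (upw w)) else [] := rfl
      rw [hp, hs]
      by_cases hz : x.1 = z
      · rw [if_pos hz]
        have e : ((none, true) :: (upw w ++ (none, true) :: winv (upw w)) : W (Option Γ)) =
            [(none, true)] ++ (upw w ++ ([(none, true)] ++ upw (winv w))) := by
          rw [winv_upw]; rfl
        rw [e, act_append, act_append, act_append]
        set V1 := (skew M w z a0).act V (upw (winv w)) with hV1
        set V2 := (skew M w z a0).act V1 [(none, true)] with hV2
        set V3 := (skew M w z a0).act V2 (upw w) with hV3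
        have l1 : V1.length = N := by rw [hV1, act_length, hV']
        have l2 : V2.length = N := by rw [hV2, act_length, l1]
        have l3 : V3.length = N := by rw [hV3, act_length, l2]
        obtain ⟨f1, s1⟩ := act_upw M w z a0 (winv w) V
        obtain ⟨f2, s2⟩ := ih V1 l1
        obtain ⟨f3, s3⟩ := act_upw M w z a0 w V2
        obtain ⟨f4, s4⟩ := ih V3 l3
        rw [← hV1] at f1 s1
        rw [← hV2] at f2 s2
        rw [← hV3] at f3 s3
        have f3' : V3.map Prod.fst = V.map Prod.fst := by
          rw [f3, f2, f1, act_inv']
        refine ⟨?_, fun n => ?_⟩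
        · rw [List.map_cons, List.map_cons, f4, f3']
        · cases n with
          | zero =>
            simp only [sc, List.map_cons, P]
            by_cases h : x.1 = a0
            · rw [if_pos h, decide_eq_true h, Bool.xor_true]
            · rw [if_neg h, decide_eq_false h, Bool.xor_false]
          | succ n =>
            simp only [sc, List.map_cons, P]
            rw [if_pos hz, s4, s3, s2, s1, f3', f1, Bool.xor_assoc]
            congr 1
            exact Bool.xor_comm _ _
      · rw [if_neg hz, act_one]
        refine ⟨rfl, fun n => ?_⟩
        cases n with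
        | zero =>
          simp only [sc, List.map_cons, P]
          by_cases h : x.1 = a0
          · rw [if_pos h, decide_eq_true h, Bool.xor_true]
          · rw [if_neg h, decide_eq_false h, Bool.xor_false]
        | succ n =>
          simp only [sc, List.map_cons, P]
          rw [if_neg hz, Bool.xor_false]

theorem act_letter_none (M : AR Γ A) (w : W Γ) (z a0 : A) (b : Bool) (V : List (A × Bool)) :
    ((skew M w z a0).act V [(none, b)]).map Prod.fst = V.map Prod.fst ∧
      ∀ n, sc ((skew M w z a0).act V [(none, b)]) n =
        xor (sc V n) (P M w z a0 n (V.map Prod.fst)) := by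
  cases b
  · have h := act_inv' (skew M w z a0) V [(none, true)]
    have e : winv ([(none, true)] : W (Option Γ)) = [(none, false)] := rfl
    rw [e] at h
    set Y := (skew M w z a0).act V [(none, false)] with hY
    obtain ⟨f, s⟩ := act_none M w z a0 Y.length Y rfl
    rw [h] at f s
    refine ⟨f.symm, fun n => ?_⟩
    rw [s n, f, Bool.xor_assoc, Bool.xor_self, Bool.xor_false]
  · exact act_none M w z a0 V.length V rfl

end

section

variable {Γ A : Type} [DecidableEq A] (M : AR Γ A) (w : W Γ) (z : A) (a : Fin 3 → A)
  (al : ℕ → Prop)

omit [DecidableEq A] in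
/-- `w` fixes the path `z, z, …` -/
theorem fixz (hz : ∀ i, a i ≠ z)
    (h2 : ∀ j x, (¬ al j ∨ ∀ i, x ≠ a i) →
      M.act (List.replicate j z ++ [x]) w = List.replicate j z ++ [x]) (j : ℕ) :
    M.act (List.replicate j z) w = List.replicate j z := by
  have h := h2 j z (Or.inr fun i => (hz i).symm)
  obtain ⟨U', hU⟩ := act_pre M (List.replicate j z) w
  rw [hU] at h
  exact (List.append_inj h (act_length M _ _)).1

omit [DecidableEq A] in
theorem fixz' (hz : ∀ i, a i ≠ z)
    (h2 : ∀ j x, (¬ al j ∨ ∀ i, x ≠ a i) →
      M.act (List.replicate j z ++ [x]) w = List.replicate j z ++ [x]) (j : ℕ) :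
    M.act (List.replicate j z) (winv w) = List.replicate j z := by
  have h := act_inv M (List.replicate j z) w
  rwa [fixz M w z a al hz h2] at h

/-- lists which are not of the form `z ^ n x v` are not flipped in the coordinate `n` -/
theorem P_form (a0 : A) (hfix : ∀ j, M.act (List.replicate j z) w = List.replicate j z) :
    ∀ (n : ℕ) (u : List A), P M w z a0 n u = true →
      ∃ x v', u = List.replicate n z ++ x :: v' := by
  intro n
  induction n with
  | zero =>
    intro u hu
    match u, hu with
    | x :: v, _ => exact ⟨x, v, rfl⟩
  | succ n ih =>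
    intro u hu
    match u, hu with
    | y :: u, hu =>
      simp only [P] at hu
      by_cases hy : y = z
      · subst hy
        rw [if_pos rfl] at hu
        have h : P M w y a0 n u = true ∨ P M w y a0 n (M.act u (winv w)) = true := by
          by_contra hcon
          push Not at hcon
          rw [Bool.eq_false_of_not_eq_true hcon.1, Bool.eq_false_of_not_eq_true hcon.2] at hu
          simp at hu
        rcases h with h | h
        · obtain ⟨x, v', e⟩ := ih u h
          exact ⟨x, v', by rw [e]; rfl⟩
        · obtain ⟨x, v', e⟩ := ih _ h
          have e2 := act_inv' M u w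
          rw [e] at e2
          obtain ⟨U', hU⟩ := act_pre M (List.replicate n y) w
          rw [hU, hfix, act_cons] at e2
          exact ⟨_, _, by rw [← e2]; rfl⟩
      · rw [if_neg hy] at hu
        simp at hu

/-- the flip of the coordinate `n` depends on the first letters only -/
theorem P_pre (a0 : A) (hfix' : ∀ j, M.act (List.replicate j z) (winv w) = List.replicate j z) :
    ∀ (n : ℕ) (x : A) (v' : List A), P M w z a0 n (List.replicate n z ++ x :: v') =
      P M w z a0 n (List.replicate n z ++ [x]) := by
  intro n
  induction n with
  | zero => intro x v'; rfl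
  | succ n ih =>
    intro x v'
    have e1 : List.replicate (n + 1) z ++ x :: v' = z :: (List.replicate n z ++ x :: v') := rfl
    have e2 : List.replicate (n + 1) z ++ [x] = z :: (List.replicate n z ++ [x]) := rfl
    rw [e1, e2]
    simp only [P, if_true]
    rw [ih]
    obtain ⟨U', hU⟩ := act_pre M (List.replicate n z) (winv w)
    rw [hU, hU, hfix', act_cons, act_cons, ih (M.rs U' x).1 (M.act v' (M.rs U' x).2),
      ih (M.rs U' x).1 (M.act [] (M.rs U' x).2)]

/-- the recursion of the flips -/
theorem P_rec (a0 : A) (n : ℕ) (x y : A)
    (h : M.act (List.replicate n z ++ [y]) w = List.replicate n z ++ [x]) :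
    P M w z a0 (n + 1) (List.replicate (n + 1) z ++ [x]) =
      xor (P M w z a0 n (List.replicate n z ++ [x])) (P M w z a0 n (List.replicate n z ++ [y])) := by
  have e2 : List.replicate (n + 1) z ++ [x] = z :: (List.replicate n z ++ [x]) := rfl
  rw [e2]
  simp only [P, if_true]
  have h2 := act_inv M (List.replicate n z ++ [y]) w
  rw [h] at h2
  rw [h2]

end

/-- the possible flip triples -/
def Good (d : Fin 3 → Bool) : Prop :=
  (d 0 = true ∧ d 1 = false ∧ d 2 = false) ∨ (d 0 = true ∧ d 1 = true ∧ d 2 = false) ∨
    (d 0 = true ∧ d 1 = false ∧ d 2 = true) ∨ (d 0 = false ∧ d 1 = true ∧ d 2 = true)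

theorem good_ex {d : Fin 3 → Bool} (h : Good d) : ∃ i, d i = true := by
  rcases h with h | h | h | h
  · exact ⟨0, h.1⟩
  · exact ⟨0, h.1⟩
  · exact ⟨0, h.1⟩
  · exact ⟨1, h.2.1⟩

theorem good_step {d d' : Fin 3 → Bool} (h : Good d) (h0 : d' 0 = xor (d 0) (d 2))
    (h1 : d' 1 = xor (d 1) (d 0)) (h2 : d' 2 = xor (d 2) (d 1)) : Good d' := by
  unfold Good
  rw [h0, h1, h2]
  rcases h with ⟨a, b, c⟩ | ⟨a, b, c⟩ | ⟨a, b, c⟩ | ⟨a, b, c⟩ <;> rw [a, b, c] <;> decide

theorem skew_crit : SKEW := by
  intro Γ A _ M w z a al hinj hz hM h1 h2
  have hfix := fixz M w z a al hz h2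
  have hfix' := fixz' M w z a al hz h2
  constructor
  · -- necessity
    intro hT j
    by_contra hj
    have hP : ∀ v, P M w z (a 0) (j + 1) v = false := by
      intro v
      by_contra hv
      have hv' := Bool.eq_true_of_not_eq_false hv
      obtain ⟨x, v', e⟩ := P_form M w z (a 0) hfix (j + 1) v hv'
      rw [e, P_pre M w z (a 0) hfix', P_rec M w z (a 0) j x x (h2 j x (Or.inl hj)),
        Bool.xor_self] at hv'
      exact Bool.false_ne_true hv'
    have hinv : ∀ (U : W (Option Γ)) (V : List (A × Bool)),
        sc ((skew M w z (a 0)).act V U) (j + 1) = sc V (j + 1) := by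
      intro U
      induction U with
      | nil => intro V; rw [act_one]
      | cons s U ih =>
        intro V
        have e : s :: U = [s] ++ U := rfl
        rw [e, act_append]
        obtain ⟨g, b⟩ := s
        cases g with
        | none =>
          rw [(act_letter_none M w z (a 0) b _).2, hP, Bool.xor_false, ih]
        | some g =>
          have e2 : ([(some g, b)] : W (Option Γ)) = upw [(g, b)] := rfl
          rw [e2, (act_upw M w z (a 0) _ _).2, ih]
    have hsc : ∀ (b : Bool) (n k : ℕ), n < k → sc (List.replicate k (z, b)) n = b := by
      intro b n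
      induction n with
      | zero =>
        intro k hk
        obtain ⟨k, rfl⟩ : ∃ k', k = k' + 1 := ⟨k - 1, by omega⟩
        rfl
      | succ n ih =>
        intro k hk
        obtain ⟨k, rfl⟩ : ∃ k', k = k' + 1 := ⟨k - 1, by omega⟩
        exact ih k (by omega)
    obtain ⟨U, hU⟩ := hT (List.replicate (j + 2) (z, false)) (List.replicate (j + 2) (z, true))
      (by rw [List.length_replicate, List.length_replicate])
    have h3 := hinv U (List.replicate (j + 2) (z, false))
    rw [hU, hsc true (j + 1) (j + 2) (by omega), hsc false (j + 1) (j + 2) (by omega)] at h3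
    exact Bool.false_ne_true h3.symm
  · -- sufficiency
    intro hal
    -- flips at other letters
    have hPother : ∀ (j : ℕ) (x : A), (∀ i, x ≠ a i) →
        P M w z (a 0) j (List.replicate j z ++ [x]) = false := by
      intro j
      cases j with
      | zero =>
        intro x hx
        exact decide_eq_false (hx 0)
      | succ j =>
        intro x hx
        rw [P_rec M w z (a 0) j x x (h2 j x (Or.inr hx)), Bool.xor_self]
    have hgood : ∀ j : ℕ, Good (fun i => P M w z (a 0) j (List.replicate j z ++ [a i])) := by
      intro j
      induction j with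
      | zero =>
        left
        refine ⟨decide_eq_true rfl, ?_, ?_⟩
        · exact decide_eq_false fun h => absurd (hinj h) (by decide)
        · exact decide_eq_false fun h => absurd (hinj h) (by decide)
      | succ j ih =>
        refine good_step ih ?_ ?_ ?_
        · exact P_rec M w z (a 0) j (a 0) (a 2) (h1 j 2 (hal j))
        · exact P_rec M w z (a 0) j (a 1) (a 0) (h1 j 0 (hal j))
        · exact P_rec M w z (a 0) j (a 2) (a 1) (h1 j 1 (hal j))
    -- unit flips
    have hunit : ∀ (v : List A) (m : ℕ), m < v.length → ∃ U : W (Option Γ),
        ∀ X : List (A × Bool), X.map Prod.fst = v →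
          ((skew M w z (a 0)).act X U).map Prod.fst = v ∧
          ∀ n, sc ((skew M w z (a 0)).act X U) n = xor (sc X n) (decide (n = m)) := by
      intro v m hm
      obtain ⟨i, hi⟩ := good_ex (hgood m)
      set u : List A := List.replicate m z ++ a i :: List.replicate (v.length - m - 1) z with hu
      have hul : v.length = u.length := by
        rw [hu, List.length_append, List.length_cons, List.length_replicate,
          List.length_replicate]
        omega
      obtain ⟨g, hg⟩ := hM v u hul
      have hPu : ∀ n, P M w z (a 0) n u = decide (n = m) := by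
        intro n
        rcases lt_trichotomy n m with h | h | h
        · rw [decide_eq_false (by omega)]
          have e : u = List.replicate n z ++ z :: (List.replicate (m - n - 1) z ++
              a i :: List.replicate (v.length - m - 1) z) := by
            rw [hu]
            have e1 : m = n + (1 + (m - n - 1)) := by omega
            conv_lhs => rw [e1, List.replicate_add, List.replicate_add]
            simp only [List.append_assoc]
            congr 1
            have e3 : v.length - (n + (1 + (m - n - 1))) - 1 = v.length - m - 1 := by omega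
            simp only [List.replicate_one, List.cons_append, List.nil_append, e3]
          rw [e, P_pre M w z (a 0) hfix']
          exact hPother n z fun i => (hz i).symm
        · subst h
          rw [decide_eq_true rfl, hu, P_pre M w z (a 0) hfix']
          exact hi
        · rw [decide_eq_false (by omega)]
          by_contra hcon
          have hcon' := Bool.eq_true_of_not_eq_false hcon
          obtain ⟨x, v', e⟩ := P_form M w z (a 0) hfix n u hcon'
          have e1 : u[m]? = some (a i) := by
            rw [hu, List.getElem?_append_right (by rw [List.length_replicate]),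
              List.length_replicate, Nat.sub_self]
            rfl
          have e2 : u[m]? = some z := by
            rw [e, List.getElem?_append_left (by rw [List.length_replicate]; exact h),
              List.getElem?_replicate, if_pos h]
          rw [e1] at e2
          exact hz i (Option.some.inj e2)
      refine ⟨upw (winv g) ++ ([(none, true)] ++ upw g), fun X hX => ?_⟩
      rw [act_append, act_append]
      obtain ⟨f1, s1⟩ := act_upw M w z (a 0) g X
      obtain ⟨f2, s2⟩ := act_letter_none M w z (a 0) true ((skew M w z (a 0)).act X (upw g))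
      obtain ⟨f3, s3⟩ := act_upw M w z (a 0) (winv g)
        ((skew M w z (a 0)).act ((skew M w z (a 0)).act X (upw g)) [(none, true)])
      rw [hX, hg] at f1
      refine ⟨?_, fun n => ?_⟩
      · rw [f3, f2, f1, ← hg, act_inv]
      · rw [s3, s2, s1, f1, hPu]
    -- correct the second coordinates
    have hcorr : ∀ (V : List (A × Bool)) (k : ℕ), k ≤ V.length → ∀ X : List (A × Bool),
        X.map Prod.fst = V.map Prod.fst → (∀ m, k ≤ m → sc X m = sc V m) →
        ∃ U, (skew M w z (a 0)).act X U = V := by
      intro V k
      induction k with
      | zero =>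
        intro _ X hX hs
        exact ⟨[], by rw [act_one]; exact ext_sc X V hX fun n => hs n (Nat.zero_le n)⟩
      | succ k ih =>
        intro hk X hX hs
        by_cases hkk : sc X k = sc V k
        · refine ih (by omega) X hX fun m hm => ?_
          rcases Nat.eq_or_lt_of_le hm with h | h
          · rw [← h]; exact hkk
          · exact hs m h
        · obtain ⟨U, hU⟩ := hunit (V.map Prod.fst) k (by rw [List.length_map]; omega)
          obtain ⟨f, s⟩ := hU X hX
          obtain ⟨U', hU'⟩ := ih (by omega) ((skew M w z (a 0)).act X U) f (fun m hm => by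
            rw [s m]
            rcases Nat.eq_or_lt_of_le hm with h | h
            · subst h
              rw [decide_eq_true rfl, Bool.xor_true]
              cases h3 : sc X k <;> cases h4 : sc V k <;> simp_all
            · rw [decide_eq_false (by omega), Bool.xor_false]
              exact hs m h)
          exact ⟨U' ++ U, by rw [act_append, hU']⟩
    intro X V hXV
    obtain ⟨g, hg⟩ := hM (X.map Prod.fst) (V.map Prod.fst)
      (by rw [List.length_map, List.length_map, hXV])
    obtain ⟨f1, s1⟩ := act_upw M w z (a 0) g X
    obtain ⟨U, hU⟩ := hcorr V V.length (le_refl _) ((skew M w z (a 0)).act X (upw g))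
      (by rw [f1, hg]) (fun m hm => by
        rw [s1, sc_ge V m hm, sc_ge X m (by omega)])
    exact ⟨U ++ upw g, by rw [act_append, hU]⟩

end Pool.Agent.W369.LT
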